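import Mathlib
import Pool.Agent.H35.ODD.Defs

set_option autoImplicit false

/-!
# Project SHARP (MP_6cdc09_gt): the forms (Q) for the charged modes, `r` the true (even) number

Notes 5399, 5407.  `C = (1/(r-1), 1/(r+2))` (`r ≥ 4`), `TL = (-1/(2m+1), 1/(r+2))` (`r ≥ 2`), and at `r = 2`
the points with `0 ≤ A ≤ 5/9`, `0 ≤ B ≤ 1/4` (`X1`) and `(7/13, -1/26)` (`X2`, `m = 2`).  At `r = 2` the
node `(j, l) = (2, 0)` has the larger `T` (`4 Ap` more): there the charges are `± 2` on the outside plane and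
no cross terms occur.
-/

open Pool.Agent.H35.ODD

namespace Pool.Agent.H48.SHP

/-- A quadratic form, `α + β > 0`. -/
theorem psd1 {τ α β : ℝ} (hab : 0 < α + β)
    (hd : 0 ≤ τ * (α + β) + α * β) (x y : ℝ) :
    0 ≤ τ * (x + y) ^ 2 + α * x ^ 2 + β * y ^ 2 := by
  have h : (α + β) * (τ * (x + y) ^ 2 + α * x ^ 2 + β * y ^ 2) =
      (τ * (α + β) + α * β) * (x + y) ^ 2 + (α * x - β * y) ^ 2 := by ring
  have h2 : 0 ≤ (α + β) * (τ * (x + y) ^ 2 + α * x ^ 2 + β * y ^ 2) := by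
    rw [h]
    exact add_nonneg (mul_nonneg hd (sq_nonneg _)) (sq_nonneg _)
  exact nonneg_of_mul_nonneg_right h2 hab

/-- A quadratic form, `τ + β > 0`. -/
theorem psd2 {τ α β : ℝ} (hb : 0 < τ + β) (hd : 0 ≤ τ * (α + β) + α * β) (x y : ℝ) :
    0 ≤ τ * (x + y) ^ 2 + α * x ^ 2 + β * y ^ 2 := by
  have h : (τ + β) * (τ * (x + y) ^ 2 + α * x ^ 2 + β * y ^ 2) =
      (τ * (α + β) + α * β) * x ^ 2 + (τ * x + (τ + β) * y) ^ 2 := by ring
  have h2 : 0 ≤ (τ + β) * (τ * (x + y) ^ 2 + α * x ^ 2 + β * y ^ 2) := by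
    rw [h]
    exact add_nonneg (mul_nonneg hd (sq_nonneg _)) (sq_nonneg _)
  exact nonneg_of_mul_nonneg_right h2 hb

theorem QQf_smul (r m : ℕ) (c f1 Ap Am Bp Bm : ℝ) (j l : ℕ) (x y : ℝ) :
    QQf r m (c * f1) (c * Ap) (c * Am) (c * Bp) (c * Bm) j l x y =
      c * QQf r m f1 Ap Am Bp Bm j l x y := by
  unfold QQf
  ring

theorem TT0_smul (c f1 Ap Am Bp : ℝ) (j l : ℕ) :
    TT0 (c * f1) (c * Ap) (c * Am) (c * Bp) j l = c * TT0 f1 Ap Am Bp j l := by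
  unfold TT0
  ring

/-! ### The complex point, `r ≥ 4` -/

theorem c_unit {r m : ℕ} (hr : 4 ≤ r) {j l : ℕ} (hjl : 2 ≤ j + l) :
    0 ≤ TT0 (((r : ℝ) - 1) * (r + 2)) (r + 2) 0 (r - 1) j l ∧ ∀ x y : ℝ,
      0 ≤ QQf r m (((r : ℝ) - 1) * (r + 2)) (r + 2) 0 (r - 1) 0 j l x y := by
  have hr' : (4 : ℝ) ≤ r := by exact_mod_cast hr
  have hN : (2 : ℝ) ≤ (j : ℝ) + l := by exact_mod_cast hjl
  have hj : (0 : ℝ) ≤ j := Nat.cast_nonneg j
  have hl : (0 : ℝ) ≤ l := Nat.cast_nonneg l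
  have hN1 : (0 : ℝ) < (j : ℝ) + l - 1 := by linarith
  have hjr : (0 : ℝ) < (j : ℝ) + r := by linarith
  constructor
  · unfold TT0
    set N : ℝ := (j : ℝ) + l with hNd
    have e : ((r : ℝ) - 1) * (r + 2) * N * (N - 1) - (r + 2) * j - 0 * j * (N - 1) -
        (r - 1) * l * N = (r - 1) * l * (N * (N - 1) * (r + 2) / N - N) * 1 +
        (r + 2) * j * ((r - 1) * (N - 1) - 1) := by
      have hN0 : N ≠ 0 := by positivity
      field_simp
      rw [hNd]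
      ring
    rw [e]
    have hN0 : 0 < N := by linarith
    have e2 : N * (N - 1) * ((r : ℝ) + 2) / N - N = (N - 1) * (r + 2) - N := by
      field_simp
    rw [e2]
    have h1 : 0 ≤ (N - 1) * ((r : ℝ) + 2) - N := by nlinarith
    have h2 : 0 ≤ ((r : ℝ) - 1) * (N - 1) - 1 := by nlinarith
    have h3 : 0 ≤ ((r : ℝ) - 1) * l := mul_nonneg (by linarith) hl
    have h4 : 0 ≤ ((r : ℝ) + 2) * j := mul_nonneg (by linarith) hj
    have := mul_nonneg h3 h1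
    have := mul_nonneg h4 h2
    linarith
  · intro x y
    unfold QQf
    apply psd2
    · have e : (((r : ℝ) - 1) * (r + 2) * ((j : ℝ) + l - 1) - (r + 2) * j -
          0 * j * ((j : ℝ) + l - 1) - (r - 1) * l * ((j : ℝ) + l)) / ((j : ℝ) + l - 1) ^ 2 +
          ((0 * (j : ℝ) + 0 * ((l : ℝ) + 2)) / ((l : ℝ) + 2 * m) + (((r : ℝ) - 1) - 0)) =
          (((r : ℝ) - 1) * (r * ((j : ℝ) + l - 1) - 1) +
            j * ((r - 1) * ((j : ℝ) + l) - (r + 2))) / ((j : ℝ) + l - 1) ^ 2 := by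
        field_simp
        ring
      rw [e]
      apply div_pos _ (by positivity)
      have h1 : 0 < ((r : ℝ) - 1) * (r * ((j : ℝ) + l - 1) - 1) := by
        apply mul_pos (by linarith)
        nlinarith
      have h2 : 0 ≤ (j : ℝ) * ((r - 1) * ((j : ℝ) + l) - (r + 2)) := by
        apply mul_nonneg hj
        nlinarith
      linarith
    · have e : (((r : ℝ) - 1) * (r + 2) * ((j : ℝ) + l - 1) - (r + 2) * j -
          0 * j * ((j : ℝ) + l - 1) - (r - 1) * l * ((j : ℝ) + l)) / ((j : ℝ) + l - 1) ^ 2 *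
          (((((r : ℝ) + 2) * ((j : ℝ) + 2) + (r - 1) * l) / ((j : ℝ) + r) - ((r + 2) - 0)) +
          ((0 * (j : ℝ) + 0 * ((l : ℝ) + 2)) / ((l : ℝ) + 2 * m) + (((r : ℝ) - 1) - 0))) +
          ((((r : ℝ) + 2) * ((j : ℝ) + 2) + (r - 1) * l) / ((j : ℝ) + r) - ((r + 2) - 0)) *
          ((0 * (j : ℝ) + 0 * ((l : ℝ) + 2)) / ((l : ℝ) + 2 * m) + (((r : ℝ) - 1) - 0)) =
          (((r : ℝ) + 2) * ((2 * r - 5) * ((j : ℝ) + l) - 2 * (r - 1)) + 9 * l) /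
            (((j : ℝ) + l - 1) ^ 2 * ((j : ℝ) + r)) := by
        field_simp
        ring
      rw [e]
      apply div_nonneg _ (by positivity)
      have h1 : 0 ≤ (2 * (r : ℝ) - 5) * ((j : ℝ) + l) - 2 * (r - 1) := by nlinarith
      have h2 := mul_nonneg (show (0 : ℝ) ≤ (r : ℝ) + 2 by linarith) h1
      linarith

theorem qpos_C {r m : ℕ} (hr : 4 ≤ r) {f1 Ap Bp : ℝ} (hf : 0 ≤ f1)
    (hA : ((r : ℝ) - 1) * Ap = f1) (hB : ((r : ℝ) + 2) * Bp = f1) :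
    ∀ j l : ℕ, 2 ≤ j + l → 0 ≤ TT0 f1 Ap 0 Bp j l ∧ ∀ x y : ℝ, 0 ≤ QQf r m f1 Ap 0 Bp 0 j l x y := by
  intro j l hjl
  have hr' : (4 : ℝ) ≤ r := by exact_mod_cast hr
  have h1 : (0 : ℝ) < (r : ℝ) - 1 := by linarith
  have h2 : (0 : ℝ) < (r : ℝ) + 2 := by linarith
  obtain ⟨c, hc⟩ : ∃ c : ℝ, f1 = c * (((r : ℝ) - 1) * (r + 2)) :=
    ⟨f1 / (((r : ℝ) - 1) * (r + 2)), by field_simp⟩
  have hc0 : 0 ≤ c := by
    rw [hc] at hf
    exact nonneg_of_mul_nonneg_left hf (mul_pos h1 h2)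
  have hAp : Ap = c * (r + 2) := by
    have : ((r : ℝ) - 1) * Ap = ((r : ℝ) - 1) * (c * (r + 2)) := by
      rw [hA, hc]
      ring
    exact mul_left_cancel₀ h1.ne' this
  have hBp : Bp = c * (r - 1) := by
    have : ((r : ℝ) + 2) * Bp = ((r : ℝ) + 2) * (c * (r - 1)) := by
      rw [hB, hc]
      ring
    exact mul_left_cancel₀ h2.ne' this
  obtain ⟨u, v⟩ := c_unit (m := m) hr hjl
  rw [hAp, hBp, hc]
  constructor
  · have e := TT0_smul c (((r : ℝ) - 1) * (r + 2)) (r + 2) 0 (r - 1) j l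
    rw [mul_zero] at e
    rw [e]
    exact mul_nonneg hc0 u
  · intro x y
    have e := QQf_smul r m c (((r : ℝ) - 1) * (r + 2)) (r + 2) 0 (r - 1) 0 j l x y
    rw [mul_zero] at e
    rw [e]
    exact mul_nonneg hc0 (v x y)

/-! ### `TL`, `r ≥ 2` -/

/-- The determinant polynomial. -/
def tlp (j l m r : ℝ) : ℝ :=
  (j + l - 1) * (j + r) * (l + 2 * m) * (r + 2) ^ 2 +
    (2 * m + 1) * (l + 2 * m) * ((r + 2) * (j + l - 1) * (j + l + r) - l * ((r + 2) * (j + l) - 1)) +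
    (r + 2) * (-j * l * ((2 * m + r + 3) * (j + l) - r - 2) - 2 * (r + 1) * (j + l - 1) * m * j -
      (2 * (j + l) - 1) * r * l + 2 * m * r * (j + l - 1) ^ 2 - 2 * m * r * (j + l) * l)

theorem tlp_nonneg {j l m r : ℕ} (hr : 2 ≤ r) (hjl : 2 ≤ j + l) : 0 ≤ tlp j l m r := by
  obtain ⟨r', rfl⟩ := Nat.exists_eq_add_of_le hr
  have hr0 : (0 : ℝ) ≤ r' := Nat.cast_nonneg r'
  have hm0 : (0 : ℝ) ≤ m := Nat.cast_nonneg m
  rcases j with _ | _ | j
  · obtain ⟨t, rfl⟩ := Nat.exists_eq_add_of_le (show 2 ≤ l by omega)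
    unfold tlp
    push_cast
    ring_nf
    positivity
  · obtain ⟨t, rfl⟩ := Nat.exists_eq_add_of_le (show 1 ≤ l by omega)
    unfold tlp
    push_cast
    ring_nf
    positivity
  · unfold tlp
    push_cast
    ring_nf
    positivity

theorem tl_unit {r m : ℕ} (hr : 2 ≤ r) (hm : 1 ≤ m) {j l : ℕ} (hjl : 2 ≤ j + l) :
    0 ≤ TT0 ((2 * (m : ℝ) + 1) * (r + 2)) 0 (r + 2) (2 * m + 1) j l ∧ ∀ x y : ℝ,
      0 ≤ QQf r m ((2 * (m : ℝ) + 1) * (r + 2)) 0 (r + 2) (2 * m + 1) 0 j l x y := by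
  have hr' : (2 : ℝ) ≤ r := by exact_mod_cast hr
  have hm' : (1 : ℝ) ≤ m := by exact_mod_cast hm
  have hN : (2 : ℝ) ≤ (j : ℝ) + l := by exact_mod_cast hjl
  have hj : (0 : ℝ) ≤ j := Nat.cast_nonneg j
  have hl : (0 : ℝ) ≤ l := Nat.cast_nonneg l
  have hN1 : (0 : ℝ) < (j : ℝ) + l - 1 := by linarith
  have hjr : (0 : ℝ) < (j : ℝ) + r := by linarith
  have hlm : (0 : ℝ) < (l : ℝ) + 2 * m := by linarith
  constructor
  · unfold TT0
    have e : (2 * (m : ℝ) + 1) * (r + 2) * ((j : ℝ) + l) * ((j : ℝ) + l - 1) - 0 * j -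
        (r + 2) * j * ((j : ℝ) + l - 1) - (2 * m + 1) * l * ((j : ℝ) + l) =
        (r + 2) * j * ((j : ℝ) + l - 1) * (2 * m) +
        (2 * m + 1) * l * ((r + 2) * ((j : ℝ) + l - 1) - ((j : ℝ) + l)) := by ring
    rw [e]
    have h1 : 0 ≤ ((r : ℝ) + 2) * ((j : ℝ) + l - 1) - ((j : ℝ) + l) := by nlinarith
    have h2 : 0 ≤ (2 * (m : ℝ) + 1) * l := by positivity
    have h3 := mul_nonneg h2 h1
    have h4 : 0 ≤ ((r : ℝ) + 2) * j * ((j : ℝ) + l - 1) * (2 * m) := by positivity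
    linarith
  · intro x y
    unfold QQf
    have ha : 0 < (0 * ((j : ℝ) + 2) + (2 * m + 1) * l) / ((j : ℝ) + r) - (0 - ((r : ℝ) + 2)) := by
      have : 0 ≤ (0 * ((j : ℝ) + 2) + (2 * m + 1) * l) / ((j : ℝ) + r) := by positivity
      linarith
    have hb : 0 < (((r : ℝ) + 2) * j + 0 * ((l : ℝ) + 2)) / ((l : ℝ) + 2 * m) +
        ((2 * m + 1) - 0) := by
      rw [sub_zero]
      positivity
    apply psd1 (by linarith)
    have e : ((2 * (m : ℝ) + 1) * (r + 2) * ((j : ℝ) + l - 1) - 0 * j -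
          (r + 2) * j * ((j : ℝ) + l - 1) - (2 * m + 1) * l * ((j : ℝ) + l)) /
          ((j : ℝ) + l - 1) ^ 2 *
        ((0 * ((j : ℝ) + 2) + (2 * m + 1) * l) / ((j : ℝ) + r) - (0 - ((r : ℝ) + 2)) +
          ((((r : ℝ) + 2) * j + 0 * ((l : ℝ) + 2)) / ((l : ℝ) + 2 * m) + ((2 * m + 1) - 0))) +
        ((0 * ((j : ℝ) + 2) + (2 * m + 1) * l) / ((j : ℝ) + r) - (0 - ((r : ℝ) + 2))) *
          ((((r : ℝ) + 2) * j + 0 * ((l : ℝ) + 2)) / ((l : ℝ) + 2 * m) + ((2 * m + 1) - 0)) =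
        (2 * m + 1) * tlp j l m r /
          (((j : ℝ) + l - 1) ^ 2 * ((j : ℝ) + r) * ((l : ℝ) + 2 * m)) := by
      unfold tlp
      field_simp
      ring
    rw [e]
    apply div_nonneg _ (by positivity)
    exact mul_nonneg (by positivity) (tlp_nonneg hr hjl)

theorem qpos_TL {r m : ℕ} (hr : 2 ≤ r) (hm : 1 ≤ m) {f1 Am Bp : ℝ} (hf : 0 ≤ f1)
    (hA : (2 * (m : ℝ) + 1) * Am = f1) (hB : ((r : ℝ) + 2) * Bp = f1) :
    ∀ j l : ℕ, 2 ≤ j + l → 0 ≤ TT0 f1 0 Am Bp j l ∧ ∀ x y : ℝ, 0 ≤ QQf r m f1 0 Am Bp 0 j l x y := by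
  intro j l hjl
  have h1 : (0 : ℝ) < 2 * (m : ℝ) + 1 := by positivity
  have h2 : (0 : ℝ) < (r : ℝ) + 2 := by positivity
  obtain ⟨c, hc⟩ : ∃ c : ℝ, f1 = c * ((2 * (m : ℝ) + 1) * (r + 2)) :=
    ⟨f1 / ((2 * (m : ℝ) + 1) * (r + 2)), by field_simp⟩
  have hc0 : 0 ≤ c := by
    rw [hc] at hf
    exact nonneg_of_mul_nonneg_left hf (mul_pos h1 h2)
  have hAm : Am = c * (r + 2) := by
    have : (2 * (m : ℝ) + 1) * Am = (2 * (m : ℝ) + 1) * (c * (r + 2)) := by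
      rw [hA, hc]
      ring
    exact mul_left_cancel₀ h1.ne' this
  have hBp : Bp = c * (2 * m + 1) := by
    have : ((r : ℝ) + 2) * Bp = ((r : ℝ) + 2) * (c * (2 * m + 1)) := by
      rw [hB, hc]
      ring
    exact mul_left_cancel₀ h2.ne' this
  obtain ⟨u, v⟩ := tl_unit hr hm hjl
  rw [hAm, hBp, hc]
  constructor
  · have e := TT0_smul c ((2 * (m : ℝ) + 1) * (r + 2)) 0 (r + 2) (2 * m + 1) j l
    rw [mul_zero] at e
    rw [e]
    exact mul_nonneg hc0 u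
  · intro x y
    have e := QQf_smul r m c ((2 * (m : ℝ) + 1) * (r + 2)) 0 (r + 2) (2 * m + 1) 0 j l x y
    rw [mul_zero] at e
    rw [e]
    exact mul_nonneg hc0 (v x y)

/-! ### `r = 2` -/

theorem r2_poly {j l : ℕ} (hjl : 2 ≤ j + l) (hex : ¬ (j = 2 ∧ l = 0)) :
    (0 : ℝ) ≤ 16 * (j : ℝ) ^ 2 + 16 * j * l - 4 * j + 45 * l - 72 := by
  have hj : (0 : ℝ) ≤ j := Nat.cast_nonneg j
  have hj2 : (j : ℝ) ≤ (j : ℝ) ^ 2 := by
    have : j ≤ j ^ 2 := Nat.le_self_pow (by norm_num) j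
    exact_mod_cast this
  rcases l with _ | _ | l
  · have h3 : (3 : ℝ) ≤ j := by
      have : 3 ≤ j := by
        by_contra hc
        apply hex
        omega
      exact_mod_cast this
    push_cast
    nlinarith
  · have h1 : (1 : ℝ) ≤ j := by exact_mod_cast (by omega : 1 ≤ j)
    push_cast
    nlinarith
  · have hl : (0 : ℝ) ≤ l := Nat.cast_nonneg l
    push_cast
    nlinarith [mul_nonneg hj hl]

/-- `r = 2`, `0 ≤ A ≤ 5/9`, `0 ≤ B ≤ 1/4`. -/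
theorem qpos_R2 {m : ℕ} {f1 Ap Bp : ℝ} (hA0 : 0 ≤ Ap) (hA : 9 * Ap ≤ 5 * f1)
    (hB0 : 0 ≤ Bp) (hB : 4 * Bp ≤ f1) :
    ∀ j l : ℕ, 2 ≤ j + l → 0 ≤ TT0 f1 Ap 0 Bp j l ∧ ∀ x y : ℝ,
      0 ≤ QQf 2 m f1 Ap 0 Bp 0 j l x y + (if j = 2 ∧ l = 0 then 4 * Ap * (x + y) ^ 2 else 0) := by
  intro j l hjl
  have hN : (2 : ℝ) ≤ (j : ℝ) + l := by exact_mod_cast hjl
  have hj : (0 : ℝ) ≤ j := Nat.cast_nonneg j
  have hl : (0 : ℝ) ≤ l := Nat.cast_nonneg l
  have hN1 : (0 : ℝ) < (j : ℝ) + l - 1 := by linarith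
  have hj2 : (0 : ℝ) < (j : ℝ) + 2 := by linarith
  have hf : 0 ≤ f1 := by linarith
  constructor
  · unfold TT0
    have h1 : 0 ≤ f1 * (j : ℝ) * ((j : ℝ) + l - 1 - 5 / 9) :=
      mul_nonneg (mul_nonneg hf hj) (by linarith)
    have h2 : 0 ≤ f1 * (l : ℝ) * ((j : ℝ) + l - 1 - ((j : ℝ) + l) / 4) :=
      mul_nonneg (mul_nonneg hf hl) (by linarith)
    have h3 : 0 ≤ (5 * f1 - 9 * Ap) * j := mul_nonneg (by linarith) hj
    have h4 : 0 ≤ (f1 - 4 * Bp) * (l * ((j : ℝ) + l)) :=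
      mul_nonneg (by linarith) (mul_nonneg hl (by linarith))
    nlinarith
  · intro x y
    have key : QQf 2 m f1 Ap 0 Bp 0 j l x y =
        (f1 * ((j : ℝ) + l - 1) - Ap * j - Bp * l * ((j : ℝ) + l)) / ((j : ℝ) + l - 1) ^ 2 *
          (x + y) ^ 2 + Bp * l / ((j : ℝ) + 2) * x ^ 2 + Bp * y ^ 2 := by
      unfold QQf
      push_cast
      field_simp
      ring
    rw [key]
    by_cases hex : j = 2 ∧ l = 0
    · rw [if_pos hex]
      obtain ⟨rfl, rfl⟩ := hex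
      push_cast
      have e : (f1 * ((2 : ℝ) + 0 - 1) - Ap * 2 - Bp * 0 * ((2 : ℝ) + 0)) / ((2 : ℝ) + 0 - 1) ^ 2 *
          (x + y) ^ 2 + Bp * 0 / ((2 : ℝ) + 2) * x ^ 2 + Bp * y ^ 2 + 4 * Ap * (x + y) ^ 2 =
          (f1 + 2 * Ap) * (x + y) ^ 2 + Bp * y ^ 2 := by ring
      rw [e]
      positivity
    · rw [if_neg hex, add_zero]
      have hp := r2_poly hjl hex
      rcases hB0.eq_or_lt with h0 | h0
      · rw [← h0]
        have e : (f1 * ((j : ℝ) + l - 1) - Ap * j - 0 * l * ((j : ℝ) + l)) /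
            ((j : ℝ) + l - 1) ^ 2 * (x + y) ^ 2 + 0 * l / ((j : ℝ) + 2) * x ^ 2 + 0 * y ^ 2 =
            (f1 * ((j : ℝ) + l - 1) - Ap * j) / ((j : ℝ) + l - 1) ^ 2 * (x + y) ^ 2 := by ring
        rw [e]
        apply mul_nonneg _ (sq_nonneg _)
        apply div_nonneg _ (sq_nonneg _)
        have h3 : 0 ≤ (5 * f1 - 9 * Ap) * j := mul_nonneg (by linarith) hj
        have h5 : 0 ≤ ((j : ℝ) + l - 1) - 5 / 9 * j := by
          rcases l with _ | l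
          · have h3 : (3 : ℝ) ≤ j := by
              have : 3 ≤ j := by
                by_contra hc
                apply hex
                omega
              exact_mod_cast this
            push_cast
            linarith
          · push_cast
            push_cast at hN
            have : (0 : ℝ) ≤ l := Nat.cast_nonneg l
            linarith
        have h6 := mul_nonneg hf h5
        nlinarith
      · apply psd1 (by positivity)
        have e : (f1 * ((j : ℝ) + l - 1) - Ap * j - Bp * l * ((j : ℝ) + l)) /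
            ((j : ℝ) + l - 1) ^ 2 * (Bp * l / ((j : ℝ) + 2) + Bp) + Bp * l / ((j : ℝ) + 2) * Bp =
            Bp * (((j : ℝ) + l + 2) * (f1 * ((j : ℝ) + l - 1) - Ap * j) -
              Bp * l * (4 * ((j : ℝ) + l) - 1)) / (((j : ℝ) + l - 1) ^ 2 * ((j : ℝ) + 2)) := by
          field_simp
          ring
        rw [e]
        apply div_nonneg _ (by positivity)
        apply mul_nonneg h0.le
        have h3 : 0 ≤ (5 * f1 - 9 * Ap) * (j * ((j : ℝ) + l + 2)) :=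
          mul_nonneg (by linarith) (mul_nonneg hj (by linarith))
        have h4 : 0 ≤ (f1 - 4 * Bp) * (l * (4 * ((j : ℝ) + l) - 1)) :=
          mul_nonneg (by linarith) (mul_nonneg hl (by linarith))
        have h5 := mul_nonneg hf hp
        nlinarith

theorem x2_poly {j l : ℕ} (hjl : 2 ≤ j + l) (hex : ¬ (j = 2 ∧ l = 0)) :
    (0 : ℝ) ≤ 6 * l * ((j : ℝ) + l) ^ 2 + 6 * (j : ℝ) ^ 2 + 32 * j * l + 62 * (l : ℝ) ^ 2 - j -
      51 * l - 26 := by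
  have hj : (0 : ℝ) ≤ j := Nat.cast_nonneg j
  have hj2 : (j : ℝ) ≤ (j : ℝ) ^ 2 := by
    have : j ≤ j ^ 2 := Nat.le_self_pow (by norm_num) j
    exact_mod_cast this
  rcases l with _ | _ | l
  · have h3 : (3 : ℝ) ≤ j := by
      have : 3 ≤ j := by
        by_contra hc
        apply hex
        omega
      exact_mod_cast this
    push_cast
    nlinarith
  · have h1 : (1 : ℝ) ≤ j := by exact_mod_cast (by omega : 1 ≤ j)
    push_cast
    nlinarith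
  · have hl : (0 : ℝ) ≤ l := Nat.cast_nonneg l
    push_cast
    have h1 : 0 ≤ 6 * ((l : ℝ) + 1 + 1) * ((j : ℝ) + (l + 1 + 1)) ^ 2 := by positivity
    nlinarith [mul_nonneg hj hl, mul_nonneg hl hl]

/-- `X2`: `r = 2`, `m = 2`, `(A, B) = (7/13, -1/26)`. -/
theorem qpos_X2 {u : ℝ} (hu : 0 ≤ u) :
    ∀ j l : ℕ, 2 ≤ j + l → 0 ≤ TT0 (u * 26) (u * 14) 0 (u * 2) j l ∧ ∀ x y : ℝ,
      0 ≤ QQf 2 2 (u * 26) (u * 14) 0 (u * 2) (u * 3) j l x y +
        (if j = 2 ∧ l = 0 then 4 * (u * 14) * (x + y) ^ 2 else 0) := by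
  intro j l hjl
  have hN : (2 : ℝ) ≤ (j : ℝ) + l := by exact_mod_cast hjl
  have hj : (0 : ℝ) ≤ j := Nat.cast_nonneg j
  have hl : (0 : ℝ) ≤ l := Nat.cast_nonneg l
  have hN1 : (0 : ℝ) < (j : ℝ) + l - 1 := by linarith
  have hj2 : (0 : ℝ) < (j : ℝ) + 2 := by linarith
  have hl4 : (0 : ℝ) < (l : ℝ) + 4 := by linarith
  constructor
  · have e := TT0_smul u 26 14 0 2 j l
    rw [mul_zero] at e
    rw [e]
    apply mul_nonneg hu
    unfold TT0
    nlinarith [mul_nonneg hj hl, mul_nonneg hj hN1.le, mul_nonneg hl hN1.le]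
  · intro x y
    have e := QQf_smul 2 2 u 26 14 0 2 3 j l x y
    rw [mul_zero] at e
    rw [e]
    have key : QQf 2 2 26 14 0 2 3 j l x y =
        (26 * ((j : ℝ) + l - 1) - 14 * j - 2 * l * ((j : ℝ) + l)) / ((j : ℝ) + l - 1) ^ 2 *
          (x + y) ^ 2 + 2 * l / ((j : ℝ) + 2) * x ^ 2 + (2 * l + 2) / ((l : ℝ) + 4) * y ^ 2 := by
      unfold QQf
      push_cast
      have : (l : ℝ) + 2 * 2 = l + 4 := by ring
      rw [this]
      field_simp
      ring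
    rw [key]
    by_cases hex : j = 2 ∧ l = 0
    · rw [if_pos hex]
      obtain ⟨rfl, rfl⟩ := hex
      push_cast
      have e2 : u * ((26 * ((2 : ℝ) + 0 - 1) - 14 * 2 - 2 * 0 * ((2 : ℝ) + 0)) /
          ((2 : ℝ) + 0 - 1) ^ 2 * (x + y) ^ 2 + 2 * 0 / ((2 : ℝ) + 2) * x ^ 2 +
          (2 * 0 + 2) / ((0 : ℝ) + 4) * y ^ 2) + 4 * (u * 14) * (x + y) ^ 2 =
          u * (54 * (x + y) ^ 2 + y ^ 2 / 2) := by ring
      rw [e2]
      positivity
    · rw [if_neg hex, add_zero]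
      apply mul_nonneg hu
      have hp := x2_poly hjl hex
      apply psd1 (by positivity)
      have e2 : (26 * ((j : ℝ) + l - 1) - 14 * j - 2 * l * ((j : ℝ) + l)) /
          ((j : ℝ) + l - 1) ^ 2 * (2 * l / ((j : ℝ) + 2) + (2 * l + 2) / ((l : ℝ) + 4)) +
          2 * l / ((j : ℝ) + 2) * ((2 * l + 2) / ((l : ℝ) + 4)) =
          4 * (6 * l * ((j : ℝ) + l) ^ 2 + 6 * (j : ℝ) ^ 2 + 32 * j * l + 62 * (l : ℝ) ^ 2 - j -
            51 * l - 26) / (((j : ℝ) + l - 1) ^ 2 * ((j : ℝ) + 2) * ((l : ℝ) + 4)) := by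
        field_simp
        ring
      rw [e2]
      apply div_nonneg _ (by positivity)
      linarith

end Pool.Agent.H48.SHP
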