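import Mathlib
import Pool.Agent.H48.SHP.Q
import Pool.Agent.H89.ODD.QLem
import Pool.Agent.H89.ODD.NumD

set_option autoImplicit false

/-!
# Project SHARP (MP_6cdc09_gt): the vertex condition for the charged modes

`GQ r m f0 f1 f2`, `r` the true (even) number of real dimensions of the vertex.  `gq_of_del`: it holds
in the triangle `Δ`, at `r = 2` in the part `A ≤ (2m+3)/(4m+5)`.
-/

open Pool.Agent.H35.ODD Pool.Agent.H89.ODD

namespace Pool.Agent.H48.SHP

/-- The extra term at the node `(2, 0)` for `r = 2`. -/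
noncomputable def xtr (r : ℕ) (Ap : ℝ) (j l : ℕ) (x y : ℝ) : ℝ :=
  if r = 2 ∧ j = 2 ∧ l = 0 then 4 * Ap * (x + y) ^ 2 else 0

/-- The vertex condition for the charged modes. -/
def GQ (r m : ℕ) (f0 f1 f2 : ℝ) : Prop :=
  ∃ Ap Am Bp Bm : ℝ, 0 ≤ Ap ∧ 0 ≤ Am ∧ 0 ≤ Bp ∧ 0 ≤ Bm ∧ f2 = f1 + Ap - Am ∧ f0 = f1 - Bp + Bm ∧
    ∀ j l : ℕ, 2 ≤ j + l → 0 ≤ TT0 f1 Ap Am Bp j l ∧ ∀ x y : ℝ,
      0 ≤ QQf r m f1 Ap Am Bp Bm j l x y + xtr r Ap j l x y

theorem GQ.add {r m : ℕ} {f0 f1 f2 g0 g1 g2 : ℝ} (hf : GQ r m f0 f1 f2) (hg : GQ r m g0 g1 g2) :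
    GQ r m (f0 + g0) (f1 + g1) (f2 + g2) := by
  obtain ⟨Ap, Am, Bp, Bm, a1, a2, a3, a4, a5, a6, a7⟩ := hf
  obtain ⟨Cp, Cm, Dp, Dm, b1, b2, b3, b4, b5, b6, b7⟩ := hg
  refine ⟨Ap + Cp, Am + Cm, Bp + Dp, Bm + Dm, add_nonneg a1 b1, add_nonneg a2 b2,
    add_nonneg a3 b3, add_nonneg a4 b4, by rw [a5, b5]; ring, by rw [a6, b6]; ring,
    fun j l hjl => ?_⟩
  obtain ⟨c1, c2⟩ := a7 j l hjl
  obtain ⟨d1, d2⟩ := b7 j l hjl
  constructor
  · have e : TT0 (f1 + g1) (Ap + Cp) (Am + Cm) (Bp + Dp) j l =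
        TT0 f1 Ap Am Bp j l + TT0 g1 Cp Cm Dp j l := by
      unfold TT0
      ring
    rw [e]
    exact add_nonneg c1 d1
  · intro x y
    have e : QQf r m (f1 + g1) (Ap + Cp) (Am + Cm) (Bp + Dp) (Bm + Dm) j l x y +
        xtr r (Ap + Cp) j l x y = (QQf r m f1 Ap Am Bp Bm j l x y + xtr r Ap j l x y) +
        (QQf r m g1 Cp Cm Dp Dm j l x y + xtr r Cp j l x y) := by
      unfold QQf xtr
      split_ifs <;> ring
    rw [e]
    exact add_nonneg (c2 x y) (d2 x y)

private theorem gq_of {r m : ℕ} {f1 Ap Am Bp Bm : ℝ} (a1 : 0 ≤ Ap) (a2 : 0 ≤ Am) (a3 : 0 ≤ Bp)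
    (a4 : 0 ≤ Bm) (h : ∀ j l : ℕ, 2 ≤ j + l → 0 ≤ TT0 f1 Ap Am Bp j l ∧ ∀ x y : ℝ,
      0 ≤ QQf r m f1 Ap Am Bp Bm j l x y) {f0 f2 : ℝ} (h2 : f2 = f1 + Ap - Am)
    (h0 : f0 = f1 - Bp + Bm) : GQ r m f0 f1 f2 :=
  ⟨Ap, Am, Bp, Bm, a1, a2, a3, a4, h2, h0, fun j l hjl => ⟨(h j l hjl).1, fun x y =>
    add_nonneg ((h j l hjl).2 x y) (by
      unfold xtr
      split_ifs
      · positivity
      · exact le_rfl)⟩⟩

/-- The isotropic point. -/
theorem gq_P1 {r m : ℕ} (hr : 1 ≤ r) (hm : 2 ≤ m) {t : ℝ} (ht : 0 ≤ t) :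
    GQ r m (t + t / (2 * m - 2)) t (t - t / (2 * m + 1)) := by
  have hm' : (2 : ℝ) ≤ m := by exact_mod_cast hm
  have h1 : (0 : ℝ) < 2 * m - 2 := by linarith
  have h2 : (0 : ℝ) < 2 * m + 1 := by linarith
  apply gq_of (Ap := 0) (Am := t / (2 * m + 1)) (Bp := 0) (Bm := t / (2 * m - 2)) le_rfl
    (by positivity) le_rfl (by positivity) _ (by ring) (by ring)
  have e1 : (2 * (m : ℝ) - 2) * (t / (2 * m - 2)) = t := by
    rw [mul_comm, div_mul_cancel₀ _ h1.ne']
  apply qpos_mm hr (by omega) ht (by positivity) (by positivity)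
  · apply le_of_eq
    field_simp
  · exact e1.le
  · rw [e1]
    apply le_of_eq
    field_simp
    ring

theorem gq_TL {r m : ℕ} (hr : 2 ≤ r) (hm : 1 ≤ m) {t : ℝ} (ht : 0 ≤ t) :
    GQ r m (t - t / (r + 2)) t (t - t / (2 * m + 1)) := by
  have hm' : (1 : ℝ) ≤ m := by exact_mod_cast hm
  have hr' : (2 : ℝ) ≤ r := by exact_mod_cast hr
  apply gq_of (Ap := 0) (Am := t / (2 * m + 1)) (Bp := t / (r + 2)) (Bm := 0) le_rfl
    (by positivity) (by positivity) le_rfl _ (by ring) (by ring)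
  apply qpos_TL hr hm ht
  · field_simp
  · field_simp

theorem gq_C {r m : ℕ} (hr : 4 ≤ r) {t : ℝ} (ht : 0 ≤ t) :
    GQ r m (t - t / (r + 2)) t (t + t / (r - 1)) := by
  have hr' : (4 : ℝ) ≤ r := by exact_mod_cast hr
  have h1 : (0 : ℝ) < (r : ℝ) - 1 := by linarith
  apply gq_of (Ap := t / (r - 1)) (Am := 0) (Bp := t / (r + 2)) (Bm := 0) (by positivity)
    le_rfl (by positivity) le_rfl _ (by ring) (by ring)
  apply qpos_C hr ht
  · field_simp
  · field_simp

theorem gq_R2 {m : ℕ} {f1 Ap Bp : ℝ} (hA0 : 0 ≤ Ap) (hA : 9 * Ap ≤ 5 * f1)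
    (hB0 : 0 ≤ Bp) (hB : 4 * Bp ≤ f1) : GQ 2 m (f1 - Bp) f1 (f1 + Ap) := by
  refine ⟨Ap, 0, Bp, 0, hA0, le_rfl, hB0, le_rfl, by ring, by ring, fun j l hjl => ?_⟩
  obtain ⟨h1, h2⟩ := qpos_R2 (m := m) hA0 hA hB0 hB j l hjl
  refine ⟨h1, fun x y => ?_⟩
  have := h2 x y
  unfold xtr
  simpa using this

theorem gq_X2 {u : ℝ} (hu : 0 ≤ u) : GQ 2 2 (u * 27) (u * 26) (u * 40) := by
  refine ⟨u * 14, 0, u * 2, u * 3, by positivity, le_rfl, by positivity, by positivity, by ring,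
    by ring, fun j l hjl => ?_⟩
  obtain ⟨h1, h2⟩ := qpos_X2 hu j l hjl
  refine ⟨h1, fun x y => ?_⟩
  have := h2 x y
  unfold xtr
  simpa using this

private theorem GQ.cg {r m : ℕ} {f0 f1 f2 g0 g1 g2 : ℝ} (h : GQ r m f0 f1 f2) (h0 : f0 = g0)
    (h1 : f1 = g1) (h2 : f2 = g2) : GQ r m g0 g1 g2 := by
  rw [← h0, ← h1, ← h2]
  exact h

/-- `P1` and `TL` together: `A = -1/(2m+1)`, `-1/(2m-2) ≤ B ≤ 1/(r+2)`. -/
private theorem gq_left {r m : ℕ} (hr : 2 ≤ r) (hm : 2 ≤ m) {f0 f1 : ℝ}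
    (hB : ((r : ℝ) + 2) * (f1 - f0) ≤ f1) (hB2 : (2 * (m : ℝ) - 2) * (f0 - f1) ≤ f1) :
    GQ r m f0 f1 (f1 - f1 / (2 * m + 1)) := by
  have hm' : (2 : ℝ) ≤ m := by exact_mod_cast hm
  have hr' : (2 : ℝ) ≤ r := by exact_mod_cast hr
  have h1 : (0 : ℝ) < 2 * m - 2 := by linarith
  have h2 : (0 : ℝ) < (r : ℝ) + 2 := by linarith
  have h3 : (0 : ℝ) < (r : ℝ) + 2 * m := by linarith
  have h1' : (m : ℝ) - 1 ≠ 0 := by
    intro h
    linarith
  set p : ℝ := (f1 - (r + 2) * (f1 - f0)) * (2 * m - 2) / (r + 2 * m) with hp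
  set q : ℝ := (f1 - (2 * m - 2) * (f0 - f1)) * (r + 2) / (r + 2 * m) with hq
  have hp0 : 0 ≤ p := div_nonneg (mul_nonneg (by linarith) h1.le) h3.le
  have hq0 : 0 ≤ q := div_nonneg (mul_nonneg (by linarith) h2.le) h3.le
  have e1 : p + q = f1 := by
    rw [hp, hq]
    field_simp
    ring
  have e2 : p / (2 * m - 2) = (f1 - (r + 2) * (f1 - f0)) / (r + 2 * m) := by
    rw [hp]
    field_simp
  have e0 : (p + p / (2 * m - 2)) + (q - q / (r + 2)) = f0 := by
    rw [e2, hp, hq]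
    field_simp
    ring
  apply ((gq_P1 (r := r) (by omega) hm hp0).add (gq_TL hr (by omega) hq0)).cg e0 e1
  rw [← e1]
  ring

theorem gq_of_del {r m : ℕ} (hm : 1 ≤ m) {f0 f1 f2 : ℝ} (h : Del r m f0 f1 f2)
    (hA : 4 ≤ r ∨ (r = 2 ∧ (4 * (m : ℝ) + 5) * (f2 - f1) ≤ (2 * m + 3) * f1)) :
    ∃ g0 : ℝ, GQ r m g0 f1 f2 ∧ (2 ≤ m → g0 = f0) := by
  obtain ⟨hf, d2, d3, d4⟩ := h
  have hm' : (1 : ℝ) ≤ m := by exact_mod_cast hm
  have hm1 : (0 : ℝ) < 2 * m + 1 := by linarith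
  rcases hA with hr | ⟨hr, hA⟩
  · -- `r ≥ 4`
    have hr' : (4 : ℝ) ≤ r := by exact_mod_cast hr
    have k1 : (0 : ℝ) < (r : ℝ) - 1 := by linarith
    have k2 : (0 : ℝ) < (r : ℝ) + 2 * m := by linarith
    have k3 : (0 : ℝ) < (r : ℝ) + 2 := by linarith
    -- the part of `C`
    set c : ℝ := ((2 * m + 1) * (f2 - f1) + f1) * (r - 1) / (r + 2 * m) with hc
    have hc0 : 0 ≤ c := div_nonneg (mul_nonneg (by linarith) k1.le) k2.le
    have ec : (r + 2 * (m : ℝ)) * c = ((2 * m + 1) * (f2 - f1) + f1) * (r - 1) := by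
      rw [hc]
      field_simp
    have hc1 : (c + c / (r - 1)) + ((f1 - c) - (f1 - c) / (2 * m + 1)) = f2 := by
      rw [hc]
      field_simp
      ring
    have hcf : c ≤ f1 := by
      have e : (r + 2 * (m : ℝ)) * c ≤ (r + 2 * m) * f1 := by
        rw [ec]
        have h5 : (r + 2) * (2 * (m : ℝ) - 2) * ((r + 1) * f1) ≤
            (2 * m - 2) * (r + 2) * ((r + 2) * f0) := by
          have := mul_le_mul_of_nonneg_left d3
            (mul_nonneg k3.le (by linarith : (0 : ℝ) ≤ 2 * m - 2))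
          linarith
        have h6 : ((r : ℝ) + 2) * ((r - 1) * (2 * m + 1) * f2) ≤
            (r + 2) * ((4 * m * r + 2 * m - r - 2) * f1) -
              (2 * m - 2) * (r + 2) * ((r + 2) * f0) := by
          have := mul_le_mul_of_nonneg_left d4 k3.le
          nlinarith
        have h7 : ((r : ℝ) + 2) * ((r - 1) * (2 * m + 1) * f2) ≤
            (r + 2) * (r * (2 * m + 1) * f1) := by nlinarith
        have h8 := le_of_mul_le_mul_left h7 k3
        nlinarith
      exact le_of_mul_le_mul_left e k2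
    rcases Nat.lt_or_ge m 2 with hm2 | hm2
    · refine ⟨f1 - f1 / (r + 2), ?_, fun h => by omega⟩
      apply ((gq_C (m := m) hr hc0).add (gq_TL (r := r) (by omega) hm
        (sub_nonneg.2 hcf))).cg _ (by ring) hc1
      ring
    · refine ⟨f0, ?_, fun _ => rfl⟩
      have hm2' : (2 : ℝ) ≤ m := by exact_mod_cast hm2
      have hL := gq_left (r := r) (m := m) (f0 := f0 - (c - c / (r + 2))) (f1 := f1 - c) (by omega)
        hm2 (by
          have e : (r + 2) * (c / ((r : ℝ) + 2)) = c := by field_simp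
          nlinarith) (by
          -- the line
          have e1 : (r + 2) * ((2 * (m : ℝ) - 2) * (f0 - (c - c / (r + 2)) - (f1 - c))) =
              (2 * m - 2) * ((r + 2) * (f0 - f1)) + (2 * m - 2) * c := by
            field_simp
            ring
          have e2 : (r + 2) * ((2 * (m : ℝ) - 2) * (f0 - (c - c / (r + 2)) - (f1 - c))) ≤
              (r + 2) * (f1 - c) := by
            rw [e1]
            nlinarith
          exact le_of_mul_le_mul_left e2 k3)
      apply ((gq_C (m := m) hr hc0).add hL).cg (by ring) (by ring) hc1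
  · -- `r = 2`
    subst hr
    push_cast at d3 d4
    have k2 : (0 : ℝ) < 4 * (m : ℝ) + 5 := by linarith
    have k4 : (0 : ℝ) < 4 * ((m : ℝ) + 2) * (m + 1) := by positivity
    -- `A* + 1/(2m+1) = 4 (m+1)(m+2)... / ((4m+5)(2m+1))`
    set s : ℝ := ((2 * m + 1) * (f2 - f1) + f1) * (4 * m + 5) / (4 * (m + 2) * (m + 1)) with hs
    have hs0 : 0 ≤ s := div_nonneg (mul_nonneg (by linarith) k2.le) k4.le
    have es : (4 * ((m : ℝ) + 2) * (m + 1)) * s = ((2 * m + 1) * (f2 - f1) + f1) * (4 * m + 5) := by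
      rw [hs]
      field_simp
    have hs1 : (s + s * ((2 * m + 3) / (4 * m + 5))) + ((f1 - s) - (f1 - s) / (2 * m + 1)) = f2 := by
      have h5 : (2 * (m : ℝ) + 1) * (s * ((2 * m + 3) / (4 * m + 5))) + s =
          (2 * m + 1) * (f2 - f1) + f1 := by
        rw [hs]
        field_simp
        ring
      have h6 : (2 * (m : ℝ) + 1) * ((f1 - s) / (2 * m + 1)) = f1 - s := by field_simp
      have h7 : (2 * (m : ℝ) + 1) * ((s + s * ((2 * m + 3) / (4 * m + 5))) +
          ((f1 - s) - (f1 - s) / (2 * m + 1))) = (2 * m + 1) * f2 := by linarith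
      exact mul_left_cancel₀ hm1.ne' h7
    have hsf : s ≤ f1 := by
      have e : (4 * ((m : ℝ) + 2) * (m + 1)) * s ≤ (4 * (m + 2) * (m + 1)) * f1 := by
        rw [es]
        nlinarith
      exact le_of_mul_le_mul_left e k4
    have hAs : 9 * (s * ((2 * (m : ℝ) + 3) / (4 * m + 5))) ≤ 5 * s := by
      have : (2 * (m : ℝ) + 3) / (4 * m + 5) ≤ 5 / 9 := by
        rw [div_le_div_iff₀ k2 (by norm_num)]
        linarith
      nlinarith
    have hAs0 : 0 ≤ s * ((2 * (m : ℝ) + 3) / (4 * m + 5)) := by positivity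
    have hTL : ∀ {t : ℝ}, 0 ≤ t → GQ 2 m (t - t / 4) t (t - t / (2 * m + 1)) := by
      intro t ht
      apply (gq_TL (r := 2) (m := m) le_rfl hm ht).cg _ rfl rfl
      push_cast
      ring
    rcases Nat.lt_or_ge m 2 with hm2 | hm2
    · refine ⟨f1 - f1 / 4, ?_, fun h => by omega⟩
      apply ((gq_R2 (m := m) (Bp := s / 4) hAs0 hAs (by positivity) (by linarith)).add
        (hTL (sub_nonneg.2 hsf))).cg _ (by ring) hs1
      ring
    · refine ⟨f0, ?_, fun _ => rfl⟩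
      have hm2' : (2 : ℝ) ≤ m := by exact_mod_cast hm2
      have k5 : (0 : ℝ) < 2 * m - 2 := by linarith
      -- the line: `b ≥ -(f1 - s)/(2m-2) + s (m²-m-3)/(2(m-1)(4m+5))`
      have hline : 0 ≤ (2 * (m : ℝ) - 2) * (f1 - f0) + (f1 - s) - s * ((m ^ 2 - m - 3) / (4 * m + 5)) := by
        have e1 : (4 * ((m : ℝ) + 2) * (m + 1)) * ((2 * (m : ℝ) - 2) * (f1 - f0) + (f1 - s) -
            s * ((m ^ 2 - m - 3) / (4 * m + 5))) =
            (4 * (m + 2) * (m + 1)) * ((2 * m - 2) * (f1 - f0) + f1) -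
              ((2 * m + 1) * (f2 - f1) + f1) * ((4 * m + 5) + (m ^ 2 - m - 3)) := by
          have e2 : (4 * ((m : ℝ) + 2) * (m + 1)) * (s * ((m ^ 2 - m - 3) / (4 * m + 5))) =
              ((2 * m + 1) * (f2 - f1) + f1) * (m ^ 2 - m - 3) := by
            rw [hs]
            field_simp
          nlinarith
        have e3 : 0 ≤ (4 * ((m : ℝ) + 2) * (m + 1)) * ((2 * (m : ℝ) - 2) * (f1 - f0) + (f1 - s) -
            s * ((m ^ 2 - m - 3) / (4 * m + 5))) := by
          rw [e1]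
          have e4 : (4 * (m : ℝ) + 5) + (m ^ 2 - m - 3) = (m + 2) * (m + 1) := by ring
          rw [e4]
          have e5 : 0 ≤ ((m : ℝ) + 2) * (m + 1) * (4 * ((2 * m - 2) * (f1 - f0) + f1) -
              ((2 * m + 1) * (f2 - f1) + f1)) := by
            apply mul_nonneg (by positivity)
            linarith
          linarith
        exact nonneg_of_mul_nonneg_right e3 k4
      by_cases hb : s * (2 * m - 2) ≤ 4 * ((2 * (m : ℝ) - 2) * (f1 - f0) + (f1 - s))
      · -- `β = s/4`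
        have hL := gq_left (r := 2) (m := m) (f0 := f0 - (s - s / 4)) (f1 := f1 - s) le_rfl hm2
          (by
            push_cast
            linarith) (by nlinarith)
        apply ((gq_R2 (m := m) (Bp := s / 4) hAs0 hAs (by positivity) (by linarith)).add hL).cg
          (by ring) (by ring) hs1
      · -- `β = b + (f1 - s)/(2m-2)`
        have hb' := not_le.1 hb
        set β : ℝ := (f1 - f0) + (f1 - s) / (2 * m - 2) with hβ
        have eβ : (2 * (m : ℝ) - 2) * β = (2 * m - 2) * (f1 - f0) + (f1 - s) := by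
          rw [hβ, mul_add, mul_comm _ ((f1 - s) / (2 * m - 2)), div_mul_cancel₀ _ k5.ne']
        have hβ4 : 4 * β ≤ s := by
          have : (2 * (m : ℝ) - 2) * (4 * β) ≤ (2 * m - 2) * s := by
            have e6 : (2 * (m : ℝ) - 2) * (4 * β) = 4 * ((2 * m - 2) * β) := by ring
            rw [e6, eβ]
            linarith
          exact le_of_mul_le_mul_left this k5
        have hP := gq_P1 (r := 2) (m := m) (by norm_num) hm2 (sub_nonneg.2 hsf)
        rcases le_or_gt 0 β with h0 | h0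
        · apply ((gq_R2 (m := m) (Bp := β) hAs0 hAs h0 hβ4).add hP).cg _ (by ring) hs1
          rw [hβ]
          ring
        · -- `m = 2`
          have hm3 : m = 2 := by
            by_contra hne
            have hm3 : (3 : ℝ) ≤ m := by exact_mod_cast (by omega : 3 ≤ m)
            have h9 : 0 ≤ s * (((m : ℝ) ^ 2 - m - 3) / (4 * m + 5)) := by
              apply mul_nonneg hs0
              apply div_nonneg _ k2.le
              nlinarith
            have h10 : (2 * (m : ℝ) - 2) * β < 0 := mul_neg_of_pos_of_neg k5 h0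
            rw [eβ] at h10
            linarith
          subst hm3
          push_cast at *
          have h9 : 0 ≤ 2 * β + s / 13 := by
            have e7 : s * (((2 : ℝ) ^ 2 - 2 - 3) / (4 * 2 + 5)) = - (s / 13) := by ring
            rw [e7] at hline
            linarith
          -- weight of `X2`: `-26 β = 26 u`
          have hR := gq_R2 (m := 2) (f1 := s + 26 * β) (Ap := (s + 26 * β) * (7 / 13)) (Bp := 0)
            (by
              apply mul_nonneg _ (by norm_num)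
              linarith) (by linarith) le_rfl (by linarith)
          have hX := gq_X2 (u := -β) (by linarith)
          apply ((hR.add hX).add hP).cg _ (by ring) _
          · have e8 : β = (f1 - f0) + (f1 - s) / (2 * 2 - 2) := hβ
            linarith
          · rw [← hs1]
            ring

end Pool.Agent.H48.SHP
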