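import Mathlib
import Pool.Agent.H61.UProj.Stmt

set_option autoImplicit false

/-!
# One condition for both parities

`T(θ) = det (cos θ + sin θ Ω)`, `Ω_ab = Im ⟨e_a, e_b⟩` (`a, b < i`).  `T(π - θ) = (-1)^i T(θ)`, so for odd `i`
the integrals of `T` and of `T cos 2θ` over `[0, π]` are `0` and the condition
`i (2n-i) ∫ T ≤ (i+2) (6n-3i+8) ∫ T cos 2θ` is `0 ≤ 0`.  For `i = 2r` it is four times
`r (n-r) ∫ T ≤ (r+1) (3n-3r+4) ∫ T cos 2θ`.
-/

open Pool.Agent.H61.UProj (Cn)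

noncomputable section

namespace Pool.Agent.H48.SHP

variable {n i : ℕ}

/-- `T(θ) = det (cos θ + sin θ Ω)`, `Ω_ab = Im ⟨e_a, e_b⟩`. -/
def TU (e : Fin i → Cn n) (θ : ℝ) : ℝ :=
  (Matrix.of fun a b : Fin i =>
    Real.cos θ * (if a = b then 1 else 0) + Real.sin θ * (inner ℂ (e a) (e b)).im).det

theorem TU_refl (e : Fin i → Cn n) (θ : ℝ) : TU e (Real.pi - θ) = (-1) ^ i * TU e θ := by
  unfold TU
  rw [Real.cos_pi_sub, Real.sin_pi_sub]
  have h : (Matrix.of fun a b : Fin i =>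
      -Real.cos θ * (if a = b then 1 else 0) + Real.sin θ * (inner ℂ (e a) (e b)).im) =
      -(Matrix.of fun a b : Fin i =>
        Real.cos θ * (if a = b then 1 else 0) + Real.sin θ * (inner ℂ (e a) (e b)).im).transpose := by
    ext a b
    have h1 : (inner ℂ (e b) (e a)).im = -(inner ℂ (e a) (e b)).im := by
      rw [← inner_conj_symm (𝕜 := ℂ) (e b) (e a), Complex.conj_im]
    simp only [Matrix.of_apply, Matrix.neg_apply, Matrix.transpose_apply, h1, eq_comm (a := b)]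
    ring
  rw [h, Matrix.det_neg, Matrix.det_transpose, Fintype.card_fin]

theorem int_odd {f : ℝ → ℝ} (h : ∀ θ, f (Real.pi - θ) = -f θ) :
    ∫ θ in (0 : ℝ)..Real.pi, f θ = 0 := by
  have h1 : ∫ θ in (0 : ℝ)..Real.pi, f (Real.pi - θ) = ∫ θ in (0 : ℝ)..Real.pi, f θ := by
    rw [intervalIntegral.integral_comp_sub_left, sub_self, sub_zero]
  have h2 : ∫ θ in (0 : ℝ)..Real.pi, f (Real.pi - θ) = -∫ θ in (0 : ℝ)..Real.pi, f θ := by
    simp only [h, intervalIntegral.integral_neg]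
  linarith

theorem TU_int (hi : Odd i) (e : Fin i → Cn n) : ∫ θ in (0 : ℝ)..Real.pi, TU e θ = 0 :=
  int_odd fun θ => by rw [TU_refl, hi.neg_one_pow, neg_one_mul]

theorem TU_int_cos (hi : Odd i) (e : Fin i → Cn n) :
    ∫ θ in (0 : ℝ)..Real.pi, TU e θ * Real.cos (2 * θ) = 0 :=
  int_odd fun θ => by
    rw [TU_refl, hi.neg_one_pow, mul_sub, Real.cos_two_pi_sub]
    ring

/-- The condition in dimension `i`. -/
def UCond (e : Fin i → Cn n) : Prop :=
  (i : ℝ) * (2 * n - i) * (∫ θ in (0 : ℝ)..Real.pi, TU e θ) ≤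
    ((i : ℝ) + 2) * (6 * n - 3 * i + 8) * ∫ θ in (0 : ℝ)..Real.pi, TU e θ * Real.cos (2 * θ)

theorem ucond_odd (hi : Odd i) (e : Fin i → Cn n) : UCond e := by
  unfold UCond
  rw [TU_int hi, TU_int_cos hi, mul_zero, mul_zero]

theorem ucond_even {r : ℕ} (e : Fin (2 * r) → Cn n) : UCond e ↔
    (r : ℝ) * (n - r) * (∫ θ in (0 : ℝ)..Real.pi, TU e θ) ≤
      ((r : ℝ) + 1) * (3 * n - 3 * r + 4) *
        ∫ θ in (0 : ℝ)..Real.pi, TU e θ * Real.cos (2 * θ) := by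
  unfold UCond
  push_cast
  constructor <;> intro h <;> linarith

end Pool.Agent.H48.SHP
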